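import Pool.Agent.H54.UPM.GroupConv

/-!
# The groups which can be reduced to bipartite UPM with gadgets of bounded width

The problem to be reduced: given `L` elements of a finite group, determine their product (or decide
a property of it).  Queries to bipartite UPM of width `p`, made of gadgets along a tree, every letter
being read once, suffice for all `L` if and only if the group is a quotient of a subgroup of a power
of the symmetric group of degree `p`.  The necessity holds even if the number of letters which are
read at most once is only required to be unbounded.

The definitions used in the statement are in `Pool.Agent.H54.UPM.Defs`.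
-/

namespace Pool.Agent.Results.MP_b06926_lc.GroupWidth

open H54.UPM

theorem result :
    (∀ (α G : Type) [Finite α] [Group G] [Finite G] [Nontrivial G] (f : α → G) (c1 : α),
      f c1 = 1 → (∀ g, ∃ l : List α, (l.map f).prod = g) → ∀ χ : G → Prop,
      (∀ g g', (∀ a b, χ (a * g * b) ↔ χ (a * g' * b)) → g = g') → ∀ r p d k : ℕ,
      Decided f χ r p d k → IsSection G r (loss k p)) ∧
    (∀ (G : Type) [Group G] (r p : ℕ), IsSection G r p → ∃ R : ℕ, Determined G R p) :=
  ⟨fun _ _ _ _ _ _ f c1 h1 h2 χ h3 _ _ _ _ h => read_group f c1 h1 h2 χ h3 h,
    fun _ _ _ _ h => section_families h⟩

end Pool.Agent.Results.MP_b06926_lc.GroupWidth
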