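import Pool.Agent.H54.UPM.IntRead2

/-!
# Gadget reductions from a zero test to bipartite UPM need growing width

The problem to be reduced: given `L` matrices of size `w × w` with entries `-1`, `0`, `1`, test
whether one entry of their integer product is zero.

* For families of bipartite graphs made of gadgets which read at most `d` letters, where `M` of the
  letters are read by at most `k` gadgets (the other letters may be read by arbitrarily many
  gadgets), the width must be at least a constant times the cube root of `M`, for every `w ≥ 2`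
  (the constant depends on `d`, `k` and the number `r` of queries only).
* With one gadget for every letter, along a path, width `(2 * w * L + 2) ^ (w + 1)` suffices.

The definitions used in the statement are in `Pool.Agent.H54.UPM.Defs`.
-/

namespace Pool.Agent.Results.MP_b06926_lc.IntegerWidth

open H54.UPM

theorem result :
    (∀ w p r d k L : ℕ, 2 ≤ w →
      ∀ F : Fin r → GFamily (Matrix (Fin w) (Fin w) ℤ) L d, (∀ j, (F j).WidthLE p) →
      2 * 6 ^ (r * k ^ 2) * (4 * r * (k ^ 2 * p + 3) ^ 3 + 2 * d + 3) ≤
        {i : Fin L | ∀ j, (F j).times i ≤ k}.ncard →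
      ∀ (B : (Fin r → Prop) → Prop) (s t : Fin w),
        ∃ x : Fin L → Matrix (Fin w) (Fin w) ℤ, (∀ i, H54.UPM.Small (x i)) ∧
          ¬ (B (fun j => UniquePM ((F j).graph x)) ↔ (List.ofFn x).prod s t = 0)) ∧
    (∀ w L : ℕ, 0 < L → ∀ s t : Fin w,
      ∃ F : GFamily (Matrix (Fin w) (Fin w) ℤ) L 1,
        F.WidthLE ((2 * w * L + 2) ^ (w + 1)) ∧ (∀ i, F.times i = 1) ∧
        ∀ x, (∀ i, H54.UPM.Small (x i)) →
          (UniquePM (F.graph x) ↔ (List.ofFn x).prod s t = 0)) := by
  refine ⟨fun w p r d k L hw F hF hL B s t => int_read hw F hF hL B s t,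
    fun w L hL s t => ?_⟩
  obtain ⟨F, h1, h2⟩ := upper_int hL s t
  exact ⟨F.toG, Family.toG_width h1, fun i => Family.toG_times F i, fun x hx => h2 x hx⟩

end Pool.Agent.Results.MP_b06926_lc.IntegerWidth
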