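import Pool.Agent.H54.UPM.ReadF2
import Pool.Agent.H54.UPM.UpperNz

/-!
# Gadget reductions from a parity problem to bipartite UPM need exponential width

The problem to be reduced: given `L` matrices of size `w × w` over the field with two elements, test
one entry of their product (the number of paths modulo 2 in a layered graph of width `w`).

* If every letter (matrix) is replaced by one gadget and the gadgets are joined along a path, then
  interfaces of `2 ^ w - 1` vertices suffice (one query, the graph has a unique perfect matching if
  and only if the entry is `1`).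
* For `w ≥ 5` less than `2 ^ w - 1` interface vertices do not suffice, even if the gadgets are
  joined along a tree, every gadget reads `d` letters, the answers of `r` queries are combined by an
  arbitrary Boolean function, the gadgets are arbitrary, the letters are elementary matrices, and
  only `N` of the letters are read by at most one gadget (the other letters may be read by
  arbitrarily many gadgets).  If these `N` letters may be read by `k` gadgets, then
  `(2 ^ w - 1) / (2 * k)` interface vertices do not suffice.  For `w = 2, 3, 4` the same holds with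
  `2 ^ (w - 1)` in place of `2 ^ w - 1`.

The definitions used in the statement are in `Pool.Agent.H54.UPM.Defs`.
-/

namespace Pool.Agent.Results.MP_b06926_lc.ParityWidth

open H54.UPM

theorem result :
    (∀ w k p : ℕ, (5 ≤ w ∧ loss k p < 2 ^ w - 1) ∨ (2 ≤ w ∧ loss k p < 2 ^ (w - 1)) →
      ∀ r d : ℕ,
      ∃ N : ℕ, ∀ (L : ℕ) (F : Fin r → GFamily (Matrix (Fin w) (Fin w) (ZMod 2)) L d),
        (∀ j, (F j).WidthLE p) → N ≤ {i : Fin L | ∀ j, (F j).times i ≤ k}.ncard →
        ∀ (B : (Fin r → Prop) → Prop) (s t : Fin w) (c : ZMod 2),
        ∃ x : Fin L → Matrix (Fin w) (Fin w) (ZMod 2), (∀ i, Elem (x i)) ∧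
          ¬ (B (fun j => UniquePM ((F j).graph x)) ↔ (List.ofFn x).prod s t = c)) ∧
    (∀ w L : ℕ, 0 < L → ∀ s t : Fin w,
      ∃ F : GFamily (Matrix (Fin w) (Fin w) (ZMod 2)) L 1,
        F.WidthLE (2 ^ w - 1) ∧ (∀ i, F.times i = 1) ∧
        ∀ x, UniquePM (F.graph x) ↔ (List.ofFn x).prod s t = 1) := by
  refine ⟨fun w k p hp r d => read_F2 hp r d, fun w L hL s t => ?_⟩
  obtain ⟨F, h1, h2⟩ := upper_F2_one hL s t
  exact ⟨F.toG, Family.toG_width h1, fun i => Family.toG_times F i, fun x => h2 x⟩

end Pool.Agent.Results.MP_b06926_lc.ParityWidth
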