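import Pool.Agent.H54.UPM.GGeneral

/-!
# The width of gadget reductions from path problems to bipartite UPM

The problems to be reduced: given a layered graph with `L + 1` layers of `w` vertices, is there no
path, or exactly one path, from a vertex of the first to a vertex of the last layer?

* With one gadget for every pair of consecutive layers, along a path, width `w + 1` suffices for the
  first and width `w` for the second problem.
* For `w ≥ 5` width `w - 1` does not suffice, even if the edges between consecutive layers form the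
  graph of an even permutation, the gadgets are joined along a tree and read `d` letters each, the
  answers of `r` queries are combined by an arbitrary Boolean function, and only `N` of the letters
  are read by at most one gadget.

The definitions used in the statement are in `Pool.Agent.H54.UPM.Defs`.
-/

namespace Pool.Agent.Results.MP_b06926_lc.PathWidth

open H54.UPM

theorem result :
    (∀ w L : ℕ, 0 < L → ∀ s t : Fin w,
      (∃ F : GFamily (Fin w → Fin w → Prop) L 1, F.WidthLE (w + 1) ∧ (∀ i, F.times i = 1) ∧
        ∀ x, UniquePM (F.graph x) ↔ ¬ ∃ q, IsWalk x s t q) ∧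
      (∃ F : GFamily (Fin w → Fin w → Prop) L 1, F.WidthLE w ∧ (∀ i, F.times i = 1) ∧
        ∀ x, UniquePM (F.graph x) ↔ ∃! q, IsWalk x s t q)) ∧
    (∀ w k p : ℕ, 5 ≤ w → loss k p < w → ∀ r d : ℕ,
      ∃ N : ℕ, ∀ (L : ℕ) (F : Fin r → GFamily (Fin w → Fin w → Prop) L d),
        (∀ j, (F j).WidthLE p) → N ≤ {i : Fin L | ∀ j, (F j).times i ≤ k}.ncard →
        ∀ (B : (Fin r → Prop) → Prop) (s t : Fin w),
        ∃ σ : Fin L → Equiv.Perm (Fin w), (∀ i, σ i ∈ alternatingGroup (Fin w)) ∧
          ¬ (B (fun j => UniquePM ((F j).graph fun i => permRel (σ i))) ↔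
            ∃ q, IsWalk (fun i => permRel (σ i)) s t q) ∧
          ¬ (B (fun j => UniquePM ((F j).graph fun i => permRel (σ i))) ↔
            ∃! q, IsWalk (fun i => permRel (σ i)) s t q)) := by
  refine ⟨fun w L hL s t => ⟨?_, ?_⟩, fun w k p hw hp r d => ?_⟩
  · obtain ⟨F, h1, h2⟩ := upper_NL hL s t
    exact ⟨F.toG, Family.toG_width h1, fun i => Family.toG_times F i, fun x => h2 x⟩
  · obtain ⟨F, h1, h2⟩ := upper_unique_path hL s t
    exact ⟨F.toG, Family.toG_width h1, fun i => Family.toG_times F i, fun x => h2 x⟩
  · obtain ⟨N, h⟩ := read_reach hw hp r d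
    refine ⟨N, fun L F hF hL B s t => ?_⟩
    obtain ⟨σ, h1, h2⟩ := h L F hF hL B s t
    refine ⟨σ, h1, h2, ?_⟩
    rw [walk_exists_unique]
    exact h2

end Pool.Agent.Results.MP_b06926_lc.PathWidth
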